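import Pool.Agent.Helper88.GU.St

set_option autoImplicit false

namespace Pool.Agent.Helper14.GU2

open Polynomial
open Pool.Agent.Helper88.GU

universe u

private lemma sup_span_le {B : Type u} [CommRing B] {J P : Ideal B} {a : B} (h : J ≤ P)
    (ha : a ∈ P) : J ⊔ Ideal.span {a} ≤ P :=
  sup_le h ((Ideal.span_singleton_le_iff_mem _).2 ha)

private lemma mem_of_sup_span {B : Type u} [CommRing B] {J P : Ideal B} {a : B}
    (h : J ⊔ Ideal.span {a} ≤ P) : a ∈ P :=
  (Ideal.span_singleton_le_iff_mem _).1 (le_trans le_sup_right h)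

/-- XB, the second stage. -/
theorem hXB (hVF : StVF.{u}) (hXA : StXA.{u}) : StXB.{u} := by
  classical
  intro R A _ _ _ _ G m x e hS 𝔨 hSup s₀ Nh hts s v₀ c F hv₀ hF 𝒬 h𝒬f h𝒬
  have hts' := hVF R A s₀ Nh hts
  set cc : (Fin (s + 1) → R) → (Fin (s + 1) → R) → Fin (s + 1) → A := fun z γ j =>
    c j + v₀ * (algebraMap R A (γ j) + lin x (z j)) with hcc
  have key : ∀ k : ℕ, k ≤ s + 1 → ∃ z γ : Fin (s + 1) → R, (∀ j, z j ∈ 𝔨 ∧ γ j ∈ 𝔨) ∧
      (∀ P : Ideal A[X], P.IsPrime → RU G x e v₀ P →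
        (∀ j : Fin (s + 1), (j : ℕ) < k → C (cc z γ j) ∈ P ∧ dl G (cc z γ j) ∈ P) →
        ((2 * k : ℕ) : ℕ∞) ≤ P.height ∧
        (C (algebraMap R A s₀) ∈ P → ((2 * k + 1 : ℕ) : ℕ∞) ≤ P.height)) ∧
      (∀ P : Ideal A, P.IsPrime → v₀ ∉ P → (∃ l, x l ∉ P) → (∀ j, F j ∈ P) →
        (∀ j : Fin (s + 1), (j : ℕ) < k → cc z γ j ∈ P) →
        ((s + k : ℕ) : ℕ∞) ≤ P.height ∧
        (algebraMap R A s₀ ∈ P → ((s + k + 1 : ℕ) : ℕ∞) ≤ P.height)) ∧
      (∀ P : Ideal A, P.IsPrime → v₀ ∉ P → (∀ j : Fin (s + 1), (j : ℕ) < k → cc z γ j ∈ P) →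
        ((k : ℕ) : ℕ∞) ≤ P.height ∧
        (algebraMap R A s₀ ∈ P → ((k + 1 : ℕ) : ℕ∞) ≤ P.height)) ∧
      (∀ Q ∈ 𝒬, v₀ ∉ Q → 0 < k → cc z γ 0 ∉ Q) := by
    intro k
    induction k with
    | zero =>
      intro _
      refine ⟨fun _ => 0, fun _ => 0, fun j => ⟨zero_mem _, zero_mem _⟩, ?_, ?_, ?_, ?_⟩
      · intro P hP _ _
        refine ⟨by simp, fun hs => ?_⟩
        have := hts'.pos P hP hs
        simpa using this
      · intro P hP hv hx hFP _
        exact hF P hP hv hx hFP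
      · intro P hP _ _
        refine ⟨by simp, fun hs => ?_⟩
        have := hts.pos P hP hs
        simpa using this
      · intro Q _ _ h
        exact absurd h (lt_irrefl 0)
    | succ k ih =>
      intro hk
      obtain ⟨z, γ, hm, ha, hb, hc, hd⟩ := ih (by omega)
      set Ja : Ideal A[X] := Ideal.span {f | ∃ j : Fin (s + 1), (j : ℕ) < k ∧
        (f = C (cc z γ j) ∨ f = dl G (cc z γ j))} with hJa
      set J1 : Ideal A := Ideal.span (Set.range F ∪
        {f | ∃ j : Fin (s + 1), (j : ℕ) < k ∧ f = cc z γ j}) with hJ1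
      set J2 : Ideal A := Ideal.span {f | ∃ j : Fin (s + 1), (j : ℕ) < k ∧ f = cc z γ j} with hJ2
      obtain ⟨zn, hzn, γn, hγn, hA, hB, hQ⟩ := hXA R A G m x e hS 𝔨 hSup v₀ (c ⟨k, by omega⟩) hv₀
        {Ja, Ja ⊔ Ideal.span {C (algebraMap R A s₀)}}
        {J1, J1 ⊔ Ideal.span {algebraMap R A s₀}, J2, J2 ⊔ Ideal.span {algebraMap R A s₀}} 𝒬
        (Set.toFinite _) (Set.toFinite _) h𝒬f h𝒬
      set z' : Fin (s + 1) → R := Function.update z ⟨k, by omega⟩ zn with hz'
      set γ' : Fin (s + 1) → R := Function.update γ ⟨k, by omega⟩ γn with hγ'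
      have hlt : ∀ j : Fin (s + 1), (j : ℕ) < k → cc z' γ' j = cc z γ j := by
        intro j hj
        have hne : j ≠ ⟨k, by omega⟩ := fun h => by
          have := congrArg Fin.val h
          simp at this
          omega
        simp only [hcc, hz', hγ', Function.update_of_ne hne]
      have heq : cc z' γ' ⟨k, by omega⟩ =
          c ⟨k, by omega⟩ + v₀ * (algebraMap R A γn + lin x zn) := by
        simp only [hcc, hz', hγ', Function.update_self]
      -- membership in the ideals
      have hJaP : ∀ P : Ideal A[X], Ja ≤ P ↔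
          ∀ j : Fin (s + 1), (j : ℕ) < k → C (cc z γ j) ∈ P ∧ dl G (cc z γ j) ∈ P := by
        intro P
        rw [hJa, Ideal.span_le]
        constructor
        · intro h j hj
          exact ⟨h ⟨j, hj, Or.inl rfl⟩, h ⟨j, hj, Or.inr rfl⟩⟩
        · rintro h f ⟨j, hj, rfl | rfl⟩
          · exact (h j hj).1
          · exact (h j hj).2
      have hJ1P : ∀ P : Ideal A, J1 ≤ P ↔ (∀ j, F j ∈ P) ∧
          ∀ j : Fin (s + 1), (j : ℕ) < k → cc z γ j ∈ P := by
        intro P
        rw [hJ1, Ideal.span_le]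
        constructor
        · intro h
          exact ⟨fun j => h (Or.inl ⟨j, rfl⟩), fun j hj => h (Or.inr ⟨j, hj, rfl⟩)⟩
        · rintro ⟨h1, h2⟩ f (⟨j, rfl⟩ | ⟨j, hj, rfl⟩)
          · exact h1 j
          · exact h2 j hj
      have hJ2P : ∀ P : Ideal A, J2 ≤ P ↔
          ∀ j : Fin (s + 1), (j : ℕ) < k → cc z γ j ∈ P := by
        intro P
        rw [hJ2, Ideal.span_le]
        constructor
        · intro h j hj
          exact h ⟨j, hj, rfl⟩
        · rintro h f ⟨j, hj, rfl⟩
          exact h j hj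
      refine ⟨z', γ', ?_, ?_, ?_, ?_, ?_⟩
      · intro j
        by_cases h : j = ⟨k, by omega⟩
        · subst h
          simp only [hz', hγ', Function.update_self]
          exact ⟨hzn, hγn⟩
        · simp only [hz', hγ', Function.update_of_ne h]
          exact hm j
      · intro P hP hRU hall
        have hPa : Ja ≤ P := (hJaP P).2 fun j hj => by
          have := hall j (by omega)
          rwa [hlt j hj] at this
        have hlast := hall ⟨k, by omega⟩ (by simp)
        rw [heq] at hlast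
        have e1 : 2 * (k + 1) = 2 * k + 2 := by ring
        have e2 : 2 * (k + 1) + 1 = (2 * k + 1) + 2 := by ring
        refine ⟨?_, fun hs => ?_⟩
        · rw [e1]
          exact hA Ja (Or.inl rfl) (2 * k)
            (fun P' hP' hJ' hR' => (ha P' hP' hR' ((hJaP P').1 hJ')).1) P hP hPa hRU hlast.1 hlast.2
        · rw [e2]
          exact hA (Ja ⊔ Ideal.span {C (algebraMap R A s₀)}) (Or.inr rfl) (2 * k + 1)
            (fun P' hP' hJ' hR' => (ha P' hP' hR' ((hJaP P').1 (le_trans le_sup_left hJ'))).2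
              (mem_of_sup_span hJ')) P hP (sup_span_le hPa hs) hRU hlast.1 hlast.2
      · intro P hP hv hx hFP hall
        have hP1 : J1 ≤ P := (hJ1P P).2 ⟨hFP, fun j hj => by
          have := hall j (by omega)
          rwa [hlt j hj] at this⟩
        have hlast := hall ⟨k, by omega⟩ (by simp)
        rw [heq] at hlast
        refine ⟨?_, fun hs => ?_⟩
        · exact hB J1 (Or.inl rfl) (fun P => v₀ ∉ P ∧ ∃ l, x l ∉ P)
            (fun P P' hPP' h => ⟨fun h' => h.1 (hPP' h'), h.2.imp fun l hl h' => hl (hPP' h')⟩)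
            (fun P h => h.1) (s + k)
            (fun P' hP' hJ' hR' => (hb P' hP' hR'.1 hR'.2 ((hJ1P P').1 hJ').1
              ((hJ1P P').1 hJ').2).1) P hP hP1 ⟨hv, hx⟩ hlast
        · exact hB (J1 ⊔ Ideal.span {algebraMap R A s₀}) (Or.inr (Or.inl rfl))
            (fun P => v₀ ∉ P ∧ ∃ l, x l ∉ P)
            (fun P P' hPP' h => ⟨fun h' => h.1 (hPP' h'), h.2.imp fun l hl h' => hl (hPP' h')⟩)
            (fun P h => h.1) (s + k + 1)
            (fun P' hP' hJ' hR' => (hb P' hP' hR'.1 hR'.2 ((hJ1P P').1 (le_trans le_sup_left hJ')).1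
              ((hJ1P P').1 (le_trans le_sup_left hJ')).2).2 (mem_of_sup_span hJ'))
            P hP (sup_span_le hP1 hs) ⟨hv, hx⟩ hlast
      · intro P hP hv hall
        have hP2 : J2 ≤ P := (hJ2P P).2 fun j hj => by
          have := hall j (by omega)
          rwa [hlt j hj] at this
        have hlast := hall ⟨k, by omega⟩ (by simp)
        rw [heq] at hlast
        refine ⟨?_, fun hs => ?_⟩
        · exact hB J2 (Or.inr (Or.inr (Or.inl rfl))) (fun P => v₀ ∉ P)
            (fun P P' hPP' h h' => h (hPP' h')) (fun P h => h) k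
            (fun P' hP' hJ' hR' => (hc P' hP' hR' ((hJ2P P').1 hJ')).1) P hP hP2 hv hlast
        · exact hB (J2 ⊔ Ideal.span {algebraMap R A s₀}) (Or.inr (Or.inr (Or.inr rfl)))
            (fun P => v₀ ∉ P)
            (fun P P' hPP' h h' => h (hPP' h')) (fun P h => h) (k + 1)
            (fun P' hP' hJ' hR' => (hc P' hP' hR' ((hJ2P P').1 (le_trans le_sup_left hJ'))).2
              (mem_of_sup_span hJ')) P hP (sup_span_le hP2 hs) hv hlast
      · intro Q hQ' hv _
        rcases Nat.eq_zero_or_pos k with h | h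
        · subst h
          have := hQ Q hQ' hv
          have h0 : cc z' γ' 0 = c ⟨0, by omega⟩ + v₀ * (algebraMap R A γn + lin x zn) := heq
          rw [h0]
          exact this
        · have h0 : cc z' γ' 0 = cc z γ 0 := hlt 0 (by simpa using h)
          rw [h0]
          exact hd Q hQ' hv h
  obtain ⟨z, γ, hm, ha, hb, hc, hd⟩ := key (s + 1) le_rfl
  refine ⟨z, γ, hm, cc z γ, fun j => rfl, ?_, ?_, ?_, ?_⟩
  · intro P hP hRU hall
    exact ha P hP hRU fun j _ => hall j
  · intro P hP hv hx hFP hall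
    exact hb P hP hv hx hFP fun j _ => hall j
  · intro P hP hv hall
    exact hc P hP hv fun j _ => hall j
  · intro Q hQ hv
    exact hd Q hQ hv (Nat.succ_pos s)

end Pool.Agent.Helper14.GU2
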