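import Pool.Agent.Helper88.GU.St

set_option autoImplicit false

namespace Pool.Agent.Helper14.GU2

open Polynomial
open Pool.Agent.Helper88.GU

universe u

/-- the grading by the total degree -/
private noncomputable def Ph (R : Type u) [CommRing R] (n : ℕ) :
    MvPolynomial (Fin n) R →+* (MvPolynomial (Fin n) R)[X] :=
  MvPolynomial.eval₂Hom (C.comp MvPolynomial.C) (fun i => C (MvPolynomial.X i) * X)

private lemma Ph_C (R : Type u) [CommRing R] (n : ℕ) (a : R) :
    Ph R n (MvPolynomial.C a) = C (MvPolynomial.C a) :=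
  MvPolynomial.eval₂Hom_C _ _ a

private lemma Ph_X (R : Type u) [CommRing R] (n : ℕ) (i : Fin n) :
    Ph R n (MvPolynomial.X i) = C (MvPolynomial.X i) * X :=
  MvPolynomial.eval₂Hom_X' _ _ i

private lemma Ph_one (R : Type u) [CommRing R] (n : ℕ) (f : MvPolynomial (Fin n) R) :
    (Ph R n f).eval 1 = f := by
  have h : (evalRingHom (1 : MvPolynomial (Fin n) R)).comp (Ph R n) = RingHom.id _ := by
    apply MvPolynomial.ringHom_ext
    · intro r; simp [Ph_C]
    · intro i; simp [Ph_X]
  exact congrArg (fun g : _ →+* _ => g f) h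

private lemma Ph_coeff (R : Type u) [CommRing R] (n : ℕ) (f : MvPolynomial (Fin n) R) :
    ∀ j, Ph R n ((Ph R n f).coeff j) = C ((Ph R n f).coeff j) * X ^ j := by
  induction f using MvPolynomial.induction_on with
  | C a =>
    intro j
    rw [Ph_C]
    rcases j with _ | j
    · rw [coeff_C_zero, Ph_C]; simp
    · rw [coeff_C_succ, map_zero, map_zero, zero_mul]
  | add p q hp hq =>
    intro j
    rw [map_add, coeff_add, map_add, hp, hq, map_add, add_mul]
  | mul_X p i hp =>
    intro j
    rw [map_mul, Ph_X, ← mul_assoc]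
    rcases j with _ | j
    · rw [mul_coeff_zero, coeff_X_zero, mul_zero, map_zero, map_zero, zero_mul]
    · rw [coeff_mul_X, coeff_mul_C, map_mul, hp, Ph_X, map_mul, pow_succ]
      ring

private lemma Ph_hom (R : Type u) [CommRing R] (n d : ℕ) (f : MvPolynomial (Fin n) R)
    (hf : f.IsHomogeneous d) : Ph R n f = C f * X ^ d := by
  classical
  have hmon : ∀ (s : Fin n →₀ ℕ) (a : R), Ph R n (MvPolynomial.monomial s a) =
      C (MvPolynomial.monomial s a) * X ^ (s.sum fun _ k => k) := by
    intro s a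
    unfold Ph
    rw [MvPolynomial.eval₂Hom_monomial]
    have h1 : (s.prod fun i k => (C (MvPolynomial.X i : MvPolynomial (Fin n) R) * X) ^ k) =
        C (s.prod fun i k => (MvPolynomial.X i : MvPolynomial (Fin n) R) ^ k) *
          X ^ (s.sum fun _ k => k) := by
      unfold Finsupp.prod Finsupp.sum
      rw [map_prod, ← Finset.prod_pow_eq_pow_sum, ← Finset.prod_mul_distrib]
      refine Finset.prod_congr rfl fun i _ => ?_
      simp only [mul_pow, C_pow]
    rw [h1, MvPolynomial.monomial_eq, map_mul, RingHom.comp_apply, mul_assoc]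
  conv_lhs => rw [← MvPolynomial.support_sum_monomial_coeff f]
  conv_rhs => rw [← MvPolynomial.support_sum_monomial_coeff f]
  rw [map_sum, map_sum, Finset.sum_mul]
  refine Finset.sum_congr rfl fun s hs => ?_
  rw [hmon]
  congr 2
  have h2 := hf (MvPolynomial.mem_support_iff.1 hs)
  rw [← h2]
  rw [Finsupp.weight_apply]
  simp [Finsupp.sum]

/-- YA, the grading. -/
theorem hYA : StYA.{u} := by
  classical
  intro R _ n m e x k he hx
  set A := Algebra.adjoin R (Set.range x) with hA
  have he0 : 0 < e := he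
  -- the injective map
  let ι : A[X] →+* (MvPolynomial (Fin n) R)[X] :=
    ((expand (MvPolynomial (Fin n) R) e : _ →ₐ[MvPolynomial (Fin n) R] _) :
      (MvPolynomial (Fin n) R)[X] →+* (MvPolynomial (Fin n) R)[X]).comp (mapRingHom (A.val : A →+* MvPolynomial (Fin n) R))
  have hιC : ∀ a : A, ι (C a) = C (a : MvPolynomial (Fin n) R) := by
    intro a
    simp [ι]
  have hιX : ι X = X ^ e := by
    simp [ι]
  have hιcoeff : ∀ (p : A[X]) (i : ℕ), (ι p).coeff (i * e) =
      ((p.coeff i : A) : MvPolynomial (Fin n) R) := by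
    intro p i
    simp only [ι, RingHom.comp_apply, coe_mapRingHom, RingHom.coe_coe]
    rw [coeff_expand_mul he0, coeff_map]
    rfl
  have hinj : Function.Injective ι := by
    intro p q hpq
    ext i : 1
    apply Subtype.ext
    rw [← hιcoeff, ← hιcoeff, hpq]
  have hrange : ∀ f : A, ∃ p : A[X], ι p = Ph R n (f : MvPolynomial (Fin n) R) := by
    rintro ⟨f, hf⟩
    induction hf using Algebra.adjoin_induction with
    | mem f hf =>
      obtain ⟨l, rfl⟩ := hf
      refine ⟨C ⟨x l, Algebra.subset_adjoin ⟨l, rfl⟩⟩ * X ^ (k l), ?_⟩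
      rw [map_mul, map_pow, hιC, hιX, ← pow_mul]
      exact (Ph_hom R n _ (x l) (hx l)).symm
    | algebraMap r =>
      refine ⟨C (algebraMap R A r), ?_⟩
      rw [hιC]
      exact (Ph_C R n r).symm
    | add f g _ _ hf hg =>
      obtain ⟨p, hp⟩ := hf
      obtain ⟨q, hq⟩ := hg
      refine ⟨p + q, ?_⟩
      rw [map_add, hp, hq, ← map_add]
    | mul f g _ _ hf hg =>
      obtain ⟨p, hp⟩ := hf
      obtain ⟨q, hq⟩ := hg
      refine ⟨p * q, ?_⟩
      rw [map_mul, hp, hq, ← map_mul]
  choose g hg using hrange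
  let Γ : A →+* A[X] :=
    { toFun := g
      map_one' := hinj (by rw [hg, map_one]; exact map_one _)
      map_mul' := fun a b => hinj (by rw [hg, map_mul, hg, hg, ← map_mul]; rfl)
      map_zero' := hinj (by rw [hg, map_zero]; exact map_zero _)
      map_add' := fun a b => hinj (by rw [hg, map_add, hg, hg, ← map_add]; rfl) }
  have hΓ : ∀ f : A, ι (Γ f) = Ph R n (f : MvPolynomial (Fin n) R) := hg
  refine ⟨⟨Γ, ?_, ?_⟩, ?_, ?_⟩
  · intro f
    apply Subtype.ext
    have h1 : (((Γ f).eval 1 : A) : MvPolynomial (Fin n) R) = (ι (Γ f)).eval 1 := by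
      have h2 : (A.val : A →+* MvPolynomial (Fin n) R).comp (evalRingHom (1 : A)) =
          (evalRingHom (1 : MvPolynomial (Fin n) R)).comp ι := by
        apply Polynomial.ringHom_ext
        · intro a
          simp only [RingHom.comp_apply, coe_evalRingHom, eval_C, hιC]
          rfl
        · simp only [RingHom.comp_apply, coe_evalRingHom, eval_X, hιX, eval_pow, one_pow, map_one]
      exact congrArg (fun g : _ →+* _ => g (Γ f)) h2
    rw [h1, hΓ, Ph_one]
  · intro f i
    apply hinj
    rw [hΓ, map_mul, map_pow, hιC, hιX, ← pow_mul, ← hιcoeff, hΓ, Ph_coeff, mul_comm e i]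
  · intro l
    apply hinj
    rw [hΓ, map_mul, map_pow, hιC, hιX, ← pow_mul]
    exact Ph_hom R n _ (x l) (hx l)
  · intro a
    apply hinj
    rw [hΓ, hιC]
    exact Ph_C R n a

end Pool.Agent.Helper14.GU2
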